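import Mathlib

/-!
Positive definite functions on `ℤ` and unitary operators.
-/

open scoped ComplexConjugate InnerProductSpace
open RKHS

namespace Q214.KZ

/-- The normalised positive definite functions on `ℤ`. -/
def PD : Set (ℤ → ℂ) :=
  {φ | φ 0 = 1 ∧ (∀ n, ‖φ n‖ ≤ 1) ∧ (∀ n, φ (-n) = conj (φ n)) ∧
    ∀ c : ℤ →₀ ℂ, 0 ≤ (c.sum fun m a => c.sum fun n b => conj a * b * φ (n - m)).re}

theorem isClosed_PD : IsClosed PD := by
  have h1 : IsClosed {φ : ℤ → ℂ | φ 0 = 1} := isClosed_eq (continuous_apply 0) continuous_const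
  have h2 : IsClosed {φ : ℤ → ℂ | ∀ n, ‖φ n‖ ≤ 1} := by
    simp only [Set.ofPred_forall]
    exact isClosed_iInter fun n => isClosed_le (continuous_apply n).norm continuous_const
  have h3 : IsClosed {φ : ℤ → ℂ | ∀ n, φ (-n) = conj (φ n)} := by
    simp only [Set.ofPred_forall]
    exact isClosed_iInter fun n => isClosed_eq (continuous_apply (-n))
      (Complex.continuous_conj.comp (continuous_apply n))
  have h4 : IsClosed {φ : ℤ → ℂ | ∀ c : ℤ →₀ ℂ,
      0 ≤ (c.sum fun m a => c.sum fun n b => conj a * b * φ (n - m)).re} := by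
    simp only [Set.ofPred_forall]
    refine isClosed_iInter fun c => isClosed_le continuous_const (Complex.continuous_re.comp ?_)
    unfold Finsupp.sum
    exact continuous_finsetSum _ fun m _ => continuous_finsetSum _ fun n _ =>
      continuous_const.mul (continuous_apply (n - m))
  exact (h1.inter (h2.inter (h3.inter h4)))

theorem isCompact_PD : IsCompact PD := by
  have h : IsCompact (Set.pi Set.univ fun _ : ℤ => Metric.closedBall (0 : ℂ) 1) :=
    isCompact_univ_pi fun _ => isCompact_closedBall _ _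
  refine h.of_isClosed_subset isClosed_PD (fun φ hφ n _ => ?_)
  rw [mem_closedBall_zero_iff]
  exact hφ.2.1 n

theorem mul_app {H : Type} [NormedAddCommGroup H] [InnerProductSpace ℂ H] (U V : H ≃ₗᵢ[ℂ] H) (x : H) :
    (U * V) x = U (V x) := rfl

/-- matrix coefficients are positive definite -/
theorem mem_PD {H : Type} [NormedAddCommGroup H] [InnerProductSpace ℂ H] (U : H ≃ₗᵢ[ℂ] H) (x : H)
    (hx : ‖x‖ = 1) : (fun n : ℤ => ⟪x, (U ^ n) x⟫_ℂ) ∈ PD := by
  have hshift : ∀ m n : ℤ, ⟪x, (U ^ (n - m)) x⟫_ℂ = ⟪(U ^ m) x, (U ^ n) x⟫_ℂ := by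
    intro m n
    rw [← LinearIsometryEquiv.inner_map_map (U ^ m) x ((U ^ (n - m)) x)]
    congr 1
    rw [← mul_app, ← zpow_add, add_sub_cancel]
  refine ⟨?_, fun n => ?_, fun n => ?_, fun c => ?_⟩
  · simp [inner_self_eq_norm_sq_to_K, hx]
  · refine (norm_inner_le_norm _ _).trans ?_
    rw [LinearIsometryEquiv.norm_map, hx]
    norm_num
  · have := hshift n 0
    rw [zero_sub] at this
    show ⟪x, (U ^ (-n)) x⟫_ℂ = conj ⟪x, (U ^ n) x⟫_ℂ
    rw [inner_conj_symm, this]
    simp
  · have h : (c.sum fun m a => c.sum fun n b => conj a * b * ⟪x, (U ^ (n - m)) x⟫_ℂ) =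
        ⟪c.sum fun m a => a • (U ^ m) x, c.sum fun m a => a • (U ^ m) x⟫_ℂ := by
      unfold Finsupp.sum
      rw [sum_inner]
      refine Finset.sum_congr rfl fun m _ => ?_
      rw [inner_sum]
      refine Finset.sum_congr rfl fun n _ => ?_
      show conj (c m) * c n * ⟪x, (U ^ (n - m)) x⟫_ℂ = _
      rw [inner_smul_left, inner_smul_right, hshift m n]
      ring
    show 0 ≤ (c.sum fun m a => c.sum fun n b => conj a * b * ⟪x, (U ^ (n - m)) x⟫_ℂ).re
    rw [h]
    exact inner_self_nonneg (𝕜 := ℂ)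

/-- the kernel of a positive definite function -/
noncomputable def ker (φ : ℤ → ℂ) : Matrix ℤ ℤ (ℂ →L[ℂ] ℂ) :=
  .of fun x y => (conj (φ (x - y))) • ContinuousLinearMap.id ℂ ℂ

theorem ker_apply (φ : ℤ → ℂ) (x y : ℤ) (v : ℂ) : ker φ x y v = conj (φ (x - y)) * v := by
  simp [ker]

theorem ker_posSemidef {φ : ℤ → ℂ} (hφ : φ ∈ PD) : (ker φ).PosSemidef := by
  refine (posSemidef_tfae.out 0 2).mpr ?_
  refine ⟨?_, fun vv => ?_⟩
  · ext x y
    · apply ext_inner_right ℂ
      intro w
      rw [Matrix.conjTranspose_apply]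
      show ⟪(ker φ y x).adjoint _, w⟫_ℂ = _
      rw [ContinuousLinearMap.adjoint_inner_left, ker_apply, ker_apply]
      have h := hφ.2.2.1 (x - y)
      rw [neg_sub] at h
      rw [h]
      simp [mul_comm]
  · have h := hφ.2.2.2 vv
    have e : (vv.sum fun x w => vv.sum fun x' w' => ⟪(ker φ x' x) w, w'⟫_ℂ) =
        (vv.sum fun m a => vv.sum fun n b => conj a * b * φ (n - m)) := by
      unfold Finsupp.sum
      refine Finset.sum_congr rfl fun m _ => Finset.sum_congr rfl fun n _ => ?_
      have h1 : ⟪(ker φ n m) (vv m), vv n⟫_ℂ = ⟪conj (φ (n - m)) * vv m, vv n⟫_ℂ := by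
        rw [ker_apply]
      refine h1.trans ?_
      simp
      ring
    rw [e]
    exact h

/-- **GNS**: every positive definite function is a matrix coefficient. -/
theorem gns {φ : ℤ → ℂ} (hφ : φ ∈ PD) :
    ∃ (H : Type) (_ : NormedAddCommGroup H) (_ : InnerProductSpace ℂ H) (_ : CompleteSpace H)
      (U : H ≃ₗᵢ[ℂ] H) (x : H), ∀ n : ℤ, ⟪x, (U ^ n) x⟫_ℂ = φ n := by
  have : Fact (ker φ).PosSemidef := ⟨ker_posSemidef hφ⟩
  let H := OfKernel (ker φ)
  let k : ℤ → H := fun x => kerFun H x 1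
  have hk : ∀ m n : ℤ, ⟪k m, k n⟫_ℂ = φ (n - m) := by
    intro m n
    have h1 := kernel_inner H n m 1 1
    rw [OfKernel.kernel_ofKernel, ker_apply] at h1
    show ⟪kerFun H m 1, kerFun H n 1⟫_ℂ = _
    rw [← h1]
    simp
  let e : (ℤ →₀ ℂ) →ₗ[ℂ] H := Finsupp.linearCombination ℂ k
  have he : DenseRange e := by
    have h1 := kerFun_dense H
    have h2 : Submodule.span ℂ {x : H | ∃ (y : ℤ) (v : ℂ), kerFun H y v = x} ≤ LinearMap.range e := by
      rw [Submodule.span_le]
      rintro _ ⟨y, v, rfl⟩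
      refine ⟨Finsupp.single y v, ?_⟩
      show Finsupp.linearCombination ℂ k (Finsupp.single y v) = _
      rw [Finsupp.linearCombination_single]
      show v • kerFun H y 1 = kerFun H y v
      rw [← map_smul]
      simp
    have h3 : (LinearMap.range e).topologicalClosure = ⊤ := by
      rw [eq_top_iff, ← h1]
      exact Submodule.topologicalClosure_mono h2
    have h4 : Dense ((LinearMap.range e : Submodule ℂ H) : Set H) :=
      Submodule.dense_iff_topologicalClosure_eq_top.2 h3
    exact h4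
  let f : (ℤ →₀ ℂ) ≃ₗ[ℂ] (ℤ →₀ ℂ) := Finsupp.domLCongr (Equiv.addRight (1 : ℤ))
  have hsum : ∀ c : ℤ →₀ ℂ, ∀ s : ℤ, ‖c.sum fun m a => a • k (m + s)‖ ^ 2 =
      (c.sum fun m a => c.sum fun n b => conj a * b * φ (n - m)).re := by
    intro c s
    have hn : ∀ v : H, ‖v‖ ^ 2 = (⟪v, v⟫_ℂ).re := fun v => (inner_self_eq_norm_sq (𝕜 := ℂ) v).symm
    rw [hn]
    congr 1
    unfold Finsupp.sum
    rw [sum_inner]
    refine Finset.sum_congr rfl fun m _ => ?_
    rw [inner_sum]
    refine Finset.sum_congr rfl fun n _ => ?_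
    rw [inner_smul_left, inner_smul_right, hk]
    have : n + s - (m + s) = n - m := by ring
    rw [this]
    ring
  have hef : ∀ c, e (f c) = c.sum fun m a => a • k (m + 1) := by
    intro c
    show Finsupp.linearCombination ℂ k (Finsupp.domLCongr (Equiv.addRight (1 : ℤ)) c) = _
    rw [Finsupp.domLCongr_apply, Finsupp.domCongr_apply, Finsupp.linearCombination_equivMapDomain]
    rw [Finsupp.linearCombination_apply]
    rfl
  have hnorm : ∀ c, ‖e (f c)‖ = ‖e c‖ := by
    intro c
    have h1 := hsum c 1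
    have h0 := hsum c 0
    rw [← hef c] at h1
    have h2 : e c = c.sum fun m a => a • k (m + 0) := by
      simp only [add_zero]
      exact Finsupp.linearCombination_apply ℂ c
    rw [← h2] at h0
    exact (sq_eq_sq₀ (norm_nonneg _) (norm_nonneg _)).1 (h1.trans h0.symm)
  let U : H ≃ₗᵢ[ℂ] H := f.extendOfIsometry e e he he hnorm
  have hU : ∀ m, U (k m) = k (m + 1) := by
    intro m
    have h1 : k m = e (Finsupp.single m 1) := by
      show k m = Finsupp.linearCombination ℂ k (Finsupp.single m 1)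
      rw [Finsupp.linearCombination_single, one_smul]
    rw [h1]
    show f.extendOfIsometry e e he he hnorm (e (Finsupp.single m 1)) = _
    rw [LinearEquiv.extendOfIsometry_eq, hef]
    simp
  have hUn : ∀ n : ℤ, ∀ m, (U ^ n) (k m) = k (m + n) := by
    intro n
    induction n using Int.induction_on with
    | zero => intro m; simp
    | succ i ih =>
      intro m
      rw [zpow_add_one, mul_app, hU, ih]
      congr 1
      ring
    | pred i ih =>
      intro m
      have h1 : U⁻¹ (k m) = k (m - 1) := by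
        have := hU (m - 1)
        rw [sub_add_cancel] at this
        rw [← this]
        exact U.symm_apply_apply _
      rw [zpow_sub_one, mul_app, h1, ih]
      congr 1
      ring
  refine ⟨H, inferInstance, inferInstance, inferInstance, U, k 0, fun n => ?_⟩
  rw [hUn, hk]
  simp

end Q214.KZ
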