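import Mathlib
import Pool.Agent.Q214.KZ.GNS

/-!
Non-Kazhdan subsets of `ℤ` in terms of positive definite functions.
-/

open scoped ComplexConjugate InnerProductSpace
open Filter Topology

namespace Q214.KZ

variable {H : Type} [NormedAddCommGroup H] [InnerProductSpace ℂ H]

theorem norm_sub_sq' (U : H ≃ₗᵢ[ℂ] H) {x : H} (hx : ‖x‖ = 1) (n : ℤ) :
    ‖(U ^ n) x - x‖ ^ 2 = 2 - 2 * (⟪x, (U ^ n) x⟫_ℂ).re := by
  have h := norm_sub_sq (𝕜 := ℂ) ((U ^ n) x) x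
  rw [h, LinearIsometryEquiv.norm_map, hx, ← inner_conj_symm]
  simp only [RCLike.conj_re, one_pow]
  have : RCLike.re ⟪x, (U ^ n) x⟫_ℂ = (⟪x, (U ^ n) x⟫_ℂ).re := rfl
  rw [this]
  ring

theorem inner_shift (U : H ≃ₗᵢ[ℂ] H) (x : H) (m n : ℤ) :
    ⟪(U ^ m) x, (U ^ n) x⟫_ℂ = ⟪x, (U ^ (n - m)) x⟫_ℂ := by
  rw [← LinearIsometryEquiv.inner_map_map (U ^ m) x ((U ^ (n - m)) x), ← mul_app, ← zpow_add,
    add_sub_cancel]

theorem norm_sum_sq (U : H ≃ₗᵢ[ℂ] H) (x : H) (N : ℕ) :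
    ‖∑ i ∈ Finset.range N, (U ^ (i : ℤ)) x‖ ^ 2 =
      ∑ i ∈ Finset.range N, ∑ j ∈ Finset.range N, (⟪x, (U ^ ((j : ℤ) - i)) x⟫_ℂ).re := by
  have hn : ∀ v : H, ‖v‖ ^ 2 = (⟪v, v⟫_ℂ).re := fun v => (inner_self_eq_norm_sq (𝕜 := ℂ) v).symm
  rw [hn, sum_inner, Complex.re_sum]
  refine Finset.sum_congr rfl fun i _ => ?_
  rw [inner_sum, Complex.re_sum]
  refine Finset.sum_congr rfl fun j _ => ?_
  rw [inner_shift]

/-- the fixed vectors -/
def fixed (U : H ≃ₗᵢ[ℂ] H) : Submodule ℂ H where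
  carrier := {y | U y = y}
  add_mem' := fun {a b} ha hb => by
    show U (a + b) = a + b
    rw [map_add, ha, hb]
  zero_mem' := map_zero U
  smul_mem' := fun c a ha => by
    show U (c • a) = c • a
    rw [map_smul, ha]

theorem mem_fixed {U : H ≃ₗᵢ[ℂ] H} {y : H} : y ∈ fixed U ↔ U y = y := Iff.rfl

theorem zpow_fixed {U : H ≃ₗᵢ[ℂ] H} {y : H} (hy : U y = y) (n : ℤ) : (U ^ n) y = y := by
  induction n using Int.induction_on with
  | zero => simp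
  | succ i ih => rw [zpow_add_one, mul_app, hy, ih]
  | pred i ih =>
    have h1 : U⁻¹ y = y := by
      conv_lhs => rw [← hy]
      exact U.symm_apply_apply _
    rw [zpow_sub_one, mul_app, h1, ih]

theorem isClosed_fixed (U : H ≃ₗᵢ[ℂ] H) : IsClosed (fixed U : Set H) :=
  isClosed_eq U.continuous continuous_id

theorem inner_fixed {U : H ≃ₗᵢ[ℂ] H} {y : H} (hy : U y = y) (x : H) (n : ℤ) :
    ⟪y, (U ^ n) x⟫_ℂ = ⟪y, x⟫_ℂ := by
  conv_lhs => rw [← zpow_fixed hy n]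
  exact LinearIsometryEquiv.inner_map_map _ _ _

theorem map_orth {U : H ≃ₗᵢ[ℂ] H} {y : H} (hy : y ∈ (fixed U)ᗮ) (n : ℤ) : (U ^ n) y ∈ (fixed U)ᗮ := by
  intro u hu
  rw [inner_fixed hu]
  exact hy u hu

/-- restriction to the orthogonal complement of the fixed vectors -/
noncomputable def rest (U : H ≃ₗᵢ[ℂ] H) : (fixed U)ᗮ ≃ₗᵢ[ℂ] (fixed U)ᗮ where
  toFun y := ⟨(U ^ (1 : ℤ)) y, map_orth y.2 1⟩
  invFun y := ⟨(U ^ (-1 : ℤ)) y, map_orth y.2 (-1)⟩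
  left_inv y := by
    apply Subtype.ext
    show (U ^ (-1 : ℤ)) ((U ^ (1 : ℤ)) (y : H)) = y
    rw [← mul_app, ← zpow_add]
    simp
  right_inv y := by
    apply Subtype.ext
    show (U ^ (1 : ℤ)) ((U ^ (-1 : ℤ)) (y : H)) = y
    rw [← mul_app, ← zpow_add]
    simp
  map_add' a b := by
    apply Subtype.ext
    show (U ^ (1 : ℤ)) ((a : H) + b) = _
    rw [map_add]
    rfl
  map_smul' c a := by
    apply Subtype.ext
    show (U ^ (1 : ℤ)) (c • (a : H)) = _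
    rw [map_smul]
    rfl
  norm_map' y := by
    show ‖(U ^ (1 : ℤ)) (y : H)‖ = ‖(y : H)‖
    exact LinearIsometryEquiv.norm_map _ _

theorem rest_coe (U : H ≃ₗᵢ[ℂ] H) (y : (fixed U)ᗮ) : ((rest U y : (fixed U)ᗮ) : H) = U y := by
  show (U ^ (1 : ℤ)) (y : H) = U y
  rw [zpow_one]

theorem rest_zpow (U : H ≃ₗᵢ[ℂ] H) (n : ℤ) (y : (fixed U)ᗮ) :
    (((rest U ^ n) y : (fixed U)ᗮ) : H) = (U ^ n) y := by
  induction n using Int.induction_on generalizing y with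
  | zero => simp
  | succ i ih => rw [zpow_add_one, mul_app, ih, rest_coe, zpow_add_one, mul_app]
  | pred i ih =>
    rw [zpow_sub_one, mul_app, ih, zpow_sub_one, mul_app]
    congr 1

/-- removing the fixed part -/
theorem remove_fixed [CompleteSpace H] (U : H ≃ₗᵢ[ℂ] H) {x : H} (hx : ‖x‖ = 1) {N : ℕ} (hN : 0 < N)
    (hsum : ‖∑ i ∈ Finset.range N, (U ^ (i : ℤ)) x‖ ^ 2 ≤ (N : ℝ) ^ 2 / 4) :
    ∃ x' : (fixed U)ᗮ, ‖x'‖ = 1 ∧ (∀ y, rest U y = y → y = 0) ∧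
      ∀ n : ℤ, ‖(rest U ^ n) x' - x'‖ ≤ 2 * ‖(U ^ n) x - x‖ := by
  have hcl := isClosed_fixed U
  have : CompleteSpace (fixed U) := hcl.completeSpace_coe
  obtain ⟨p, hp, y, hy, hxy⟩ := (fixed U).exists_add_mem_mem_orthogonal x
  have hpy : ⟪p, y⟫_ℂ = 0 := hy p hp
  have hN' : (0 : ℝ) < N := by exact_mod_cast hN
  -- the norm of the fixed part
  have hp1 : ‖p‖ ≤ 1 / 2 := by
    have h1 : ⟪p, ∑ i ∈ Finset.range N, (U ^ (i : ℤ)) x⟫_ℂ = N * ⟪p, p⟫_ℂ := by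
      rw [inner_sum]
      have : ∀ i ∈ Finset.range N, ⟪p, (U ^ (i : ℤ)) x⟫_ℂ = ⟪p, p⟫_ℂ := by
        intro i _
        rw [inner_fixed hp, hxy, inner_add_right, hpy, add_zero]
      rw [Finset.sum_congr rfl this]
      simp
    have h2 : (N : ℝ) * ‖p‖ ^ 2 ≤ ‖p‖ * ‖∑ i ∈ Finset.range N, (U ^ (i : ℤ)) x‖ := by
      have h3 := norm_inner_le_norm (𝕜 := ℂ) p (∑ i ∈ Finset.range N, (U ^ (i : ℤ)) x)
      rw [h1, norm_mul, inner_self_eq_norm_sq_to_K] at h3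
      simpa using h3
    have h4 : ‖∑ i ∈ Finset.range N, (U ^ (i : ℤ)) x‖ ≤ N / 2 := by
      have : (N : ℝ) ^ 2 / 4 = (N / 2) ^ 2 := by ring
      rw [this] at hsum
      exact (sq_le_sq₀ (norm_nonneg _) (by positivity)).1 hsum
    by_contra hc
    push Not at hc
    have h5 : 0 < ‖p‖ := by linarith
    have h6 : ‖p‖ * ‖∑ i ∈ Finset.range N, (U ^ (i : ℤ)) x‖ ≤ ‖p‖ * (N / 2) :=
      mul_le_mul_of_nonneg_left h4 h5.le
    have h7 : (N : ℝ) * ‖p‖ ^ 2 > ‖p‖ * (N / 2) := by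
      have := mul_lt_mul_of_pos_left hc (mul_pos hN' h5)
      calc ‖p‖ * (N / 2) = N * ‖p‖ * (1 / 2) := by ring
        _ < N * ‖p‖ * ‖p‖ := this
        _ = _ := by ring
    linarith
  have hy1 : 1 / 2 ≤ ‖y‖ := by
    have : ‖x‖ ≤ ‖p‖ + ‖y‖ := by rw [hxy]; exact norm_add_le _ _
    rw [hx] at this
    linarith
  have hy0 : 0 < ‖y‖ := by linarith
  have hdiff : ∀ n : ℤ, (U ^ n) y - y = (U ^ n) x - x := by
    intro n
    have h1 : (U ^ n) x = p + (U ^ n) y := by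
      rw [hxy, map_add, zpow_fixed hp]
    rw [h1, hxy]
    abel
  refine ⟨⟨((‖y‖⁻¹ : ℝ) : ℂ) • y, Submodule.smul_mem _ _ hy⟩, ?_, ?_, ?_⟩
  · show ‖((‖y‖⁻¹ : ℝ) : ℂ) • y‖ = 1
    rw [norm_smul, Complex.norm_real, norm_inv, norm_norm, inv_mul_cancel₀ hy0.ne']
  · intro z hz
    have h1 : U (z : H) = z := by
      rw [← rest_coe, hz]
    have h2 : ⟪(z : H), z⟫_ℂ = 0 := z.2 z h1
    exact Subtype.ext (inner_self_eq_zero.1 h2)
  · intro n
    show ‖(((rest U ^ n) _ - _ : (fixed U)ᗮ) : H)‖ ≤ _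
    rw [Submodule.coe_sub, rest_zpow]
    show ‖(U ^ n) (((‖y‖⁻¹ : ℝ) : ℂ) • y) - ((‖y‖⁻¹ : ℝ) : ℂ) • y‖ ≤ _
    rw [map_smul, ← smul_sub, hdiff, norm_smul, Complex.norm_real, norm_inv, norm_norm]
    apply mul_le_mul_of_nonneg_right _ (norm_nonneg _)
    rw [inv_le_comm₀ hy0 (by norm_num)]
    linarith

/-- the averages tend to zero if there are no fixed vectors -/
theorem exists_avg [CompleteSpace H] (U : H ≃ₗᵢ[ℂ] H) (hU : ∀ y, U y = y → y = 0) (x : H) :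
    ∃ N : ℕ, 0 < N ∧ ‖∑ i ∈ Finset.range N, (U ^ (i : ℤ)) x‖ ^ 2 ≤ (N : ℝ) ^ 2 / 4 := by
  let f : H →L[ℂ] H := (U.toContinuousLinearEquiv : H →L[ℂ] H)
  have hf : ‖f‖ ≤ 1 := by
    apply ContinuousLinearMap.opNorm_le_bound _ zero_le_one
    intro y
    rw [one_mul]
    exact (U.norm_map y).le
  have h1 := ContinuousLinearMap.tendsto_birkhoffAverage_orthogonalProjection f hf x
  have h2 : (((f.eqLocus (1 : H →L[ℂ] H)).orthogonalProjectionOnto x :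
      f.eqLocus (1 : H →L[ℂ] H)) : H) = 0 := by
    apply hU
    exact ((f.eqLocus (1 : H →L[ℂ] H)).orthogonalProjectionOnto x).2
  rw [h2] at h1
  have h3 := (Metric.tendsto_atTop.1 h1 (1 / 2) (by norm_num))
  obtain ⟨N₀, hN₀⟩ := h3
  refine ⟨N₀ + 1, Nat.succ_pos _, ?_⟩
  have h4 := hN₀ (N₀ + 1) (Nat.le_succ _)
  rw [dist_zero_right] at h4
  unfold birkhoffAverage birkhoffSum at h4
  have h5 : ∑ k ∈ Finset.range (N₀ + 1), _root_.id (f^[k] x) =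
      ∑ i ∈ Finset.range (N₀ + 1), (U ^ (i : ℤ)) x := by
    refine Finset.sum_congr rfl fun k hk => ?_
    clear hk
    show f^[k] x = _
    rw [zpow_natCast]
    induction k with
    | zero => simp
    | succ k ih =>
      rw [Function.iterate_succ_apply', ih, pow_succ']
      rfl
  rw [h5, norm_smul, norm_inv, Complex.norm_natCast] at h4
  have hpos : (0 : ℝ) < ((N₀ + 1 : ℕ) : ℝ) := by positivity
  rw [inv_mul_lt_iff₀ hpos] at h4
  have h6 : ((N₀ + 1 : ℕ) : ℝ) ^ 2 / 4 = (((N₀ + 1 : ℕ) : ℝ) * (1 / 2)) ^ 2 := by ring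
  rw [h6]
  exact (sq_le_sq₀ (norm_nonneg _) (by positivity)).2 h4.le

/-- the closed conditions -/
def E (k N : ℕ) : Set (ℤ → Bool) :=
  {Q | ∃ φ ∈ PD, (∀ n, Q n = true → 2 - 2 * (φ n).re ≤ (1 / ((k : ℝ) + 1)) ^ 2) ∧
    ∑ i ∈ Finset.range (N + 1), ∑ j ∈ Finset.range (N + 1), (φ ((j : ℤ) - i)).re ≤
      ((N : ℝ) + 1) ^ 2 / 4}

theorem isClosed_E (k N : ℕ) : IsClosed (E k N) := by
  let S : Set ((ℤ → Bool) × (ℤ → ℂ)) := {p | p.2 ∈ PD ∧
    (∀ n, p.1 n = true → 2 - 2 * (p.2 n).re ≤ (1 / ((k : ℝ) + 1)) ^ 2) ∧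
    ∑ i ∈ Finset.range (N + 1), ∑ j ∈ Finset.range (N + 1), (p.2 ((j : ℤ) - i)).re ≤
      ((N : ℝ) + 1) ^ 2 / 4}
  have hev : ∀ n : ℤ, Continuous fun p : (ℤ → Bool) × (ℤ → ℂ) => p.2 n := fun n =>
    (continuous_apply n).comp continuous_snd
  have hS : IsClosed S := by
    have c1 : IsClosed {p : (ℤ → Bool) × (ℤ → ℂ) | p.2 ∈ PD} := isClosed_PD.preimage continuous_snd
    have c2 : IsClosed {p : (ℤ → Bool) × (ℤ → ℂ) |
        ∀ n, p.1 n = true → 2 - 2 * (p.2 n).re ≤ (1 / ((k : ℝ) + 1)) ^ 2} := by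
      simp only [Set.ofPred_forall]
      refine isClosed_iInter fun n => ?_
      have : {p : (ℤ → Bool) × (ℤ → ℂ) | p.1 n = true → 2 - 2 * (p.2 n).re ≤ (1 / ((k : ℝ) + 1)) ^ 2}
          = {p | p.1 n = false} ∪ {p | 2 - 2 * (p.2 n).re ≤ (1 / ((k : ℝ) + 1)) ^ 2} := by
        ext p
        simp only [Set.mem_ofPred_eq, Set.mem_union]
        cases p.1 n <;> simp
      rw [this]
      refine IsClosed.union ?_ (isClosed_le (continuous_const.sub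
        (continuous_const.mul (Complex.continuous_re.comp (hev n)))) continuous_const)
      exact isClosed_eq ((continuous_apply n).comp continuous_fst) continuous_const
    have c3 : IsClosed {p : (ℤ → Bool) × (ℤ → ℂ) |
        ∑ i ∈ Finset.range (N + 1), ∑ j ∈ Finset.range (N + 1), (p.2 ((j : ℤ) - i)).re ≤
          ((N : ℝ) + 1) ^ 2 / 4} :=
      isClosed_le (continuous_finsetSum _ fun i _ => continuous_finsetSum _ fun j _ =>
        Complex.continuous_re.comp (hev _)) continuous_const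
    exact c1.inter (c2.inter c3)
  have hK : IsCompact S := by
    refine (isCompact_univ.prod isCompact_PD).of_isClosed_subset hS (fun p hp => ?_)
    exact ⟨Set.mem_univ _, hp.1⟩
  have : E k N = Prod.fst '' S := by
    ext Q
    constructor
    · rintro ⟨φ, h1, h2, h3⟩
      exact ⟨(Q, φ), ⟨h1, h2, h3⟩, rfl⟩
    · rintro ⟨⟨Q', φ⟩, ⟨h1, h2, h3⟩, rfl⟩
      exact ⟨φ, h1, h2, h3⟩
  rw [this]
  exact (hK.image continuous_fst).isClosed

end Q214.KZ
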